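import Pool.Agent.Q189.MG.Corr

/-!
# Orientations of mixed graphs preserving the distances from `s` to `t` and from `t` to `s`

The definitions of the statement (`MixedGraph`, `IsOrientation`, `Walk`, `dist`, `both`,
`Preservable`, `dataOf`, `input`) are at the beginning of `Pool/Agent/Q189/MG/Stmt.lean`; `PolyTime`
is computability in polynomial time by a Turing machine (Mathlib's
`Turing.TM2ComputableInPolyTime`).

The algorithm: compute the distances `d(s,x)`, `d(x,s)`, `d(x,t)`, `d(t,x)`. A shortest walk from `s`
to `t`, and a shortest walk from `t` to `s` read backwards, both have nondecreasing levels
`f(x) = d(s,x) + d(x,s)`, and an edge of positive length used by both in opposite directions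
leads to a higher level. So two pebbles are moved from `s` to `t` level by level, the lower one
first. Inside a level both walks go in the same direction, and there two compatible walks exist
if and only if the second one can avoid all the edges which are forced, in the other direction,
for the first one.
-/

set_option autoImplicit false

namespace Pool.Agent.Results.MP_bc7fec_lc.PolynomialTime

open Pool.Agent.NPC Pool.Agent.Q189.MG

/-- **There is a polynomial-time algorithm** which decides, for a mixed graph `M` with nonnegative
rational lengths and two vertices `s`, `t`, whether `M` has an orientation which preserves both
the distance from `s` to `t` and the distance from `t` to `s`. -/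
theorem result : ∃ D : List Bool → List Bool, PolyTime D ∧
    ∀ (n : ℕ) (M : MixedGraph n) (s t : Fin n),
      (D (input M s t) = [true] ↔ Preservable M s t) ∧
      (D (input M s t) = [false] ↔ ¬ Preservable M s t) := by
  refine ⟨fun x => [match unbits Data x with | none => false | some a => alg a], ?_, ?_⟩
  · refine polyTime_of_poly ((Poly.optCases (g := fun _ => false) (h := fun _ a => alg a)
      poly_unbits (NPC.Poly.const _) (poly_alg.comp (Poly.snd Poly.id))).congr fun x => ?_)
    cases unbits Data x <;> rfl
  · intro n M s t
    have h1 : input M s t = bits (dataOf M s t) := rfl
    have h2 := alg_correct M s t
    dsimp only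
    rw [h1, unbits_bits]
    simp only [List.cons.injEq, and_true]
    refine ⟨h2, ?_⟩
    rw [← h2]
    simp

end Pool.Agent.Results.MP_bc7fec_lc.PolynomialTime
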